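import Pool.Agent.Helper14.PwSynd.Main

set_option autoImplicit false

namespace Pool.Agent.Results.MP_b01501_co.NotPiecewiseSyndetic

open Pool.Agent.Helper14.PwSynd
open scoped Pointwise

/-- **Disproof of Q1 of MP_b01501_co, in a strong form.** There is a countable, locally finite,
amenable group `G` such that for every `ε > 0` there are `A, B ⊆ G` with `d(A) > 0`,
`d(A) ≥ 1 - ε` and `d(B) = 1` such that `A B⁻¹` is not piecewise `k`-syndetic for any `k`; in
particular it is not piecewise `⌊1 / (d(A) d(B))⌋`-syndetic. -/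
theorem result :
    ∃ (G : Type) (_ : Group G), Countable G ∧
      (∀ S : Finset G, (Subgroup.closure (S : Set G) : Set G).Finite) ∧
      Amenable G ∧ ∀ ε : ℝ, 0 < ε →
      ∃ A B : Set G, 0 < density A ∧ 1 - ε ≤ density A ∧ density B = 1 ∧
        (∀ k : ℕ, ¬ PiecewiseSyndetic k (A * B⁻¹)) ∧
        ¬ PiecewiseSyndetic ⌊1 / (density A * density B)⌋₊ (A * B⁻¹) :=
  main

end Pool.Agent.Results.MP_b01501_co.NotPiecewiseSyndetic
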